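import Pool.Agent.Helper53.AJ.Basic
import Pool.Agent.Helper83.AJ.A
import Pool.Agent.Helper12.AJ.BC
import Pool.Agent.Helper58.AJ.D2
import Pool.Agent.Helper20.AJ.F

/-!
# Growth of the number of models: the upper bound
-/

set_option autoImplicit false

namespace Pool.Agent.Helper53.AJ

open FirstOrder Pool.Agent.Helper20.Spectra Pool.Agent.Helper58.QD Pool.Agent.Helper14.SS
open Pool.Agent.Helper31.QD (Au)
open Pool.Agent.Helper40.MCM
open Pool.Agent.Helper40.MC (FinAP)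

variable {S : Type} {ar : S → ℕ}

/-- all models have decompositions of bounded size -/
theorem exists_dec [Finite S] (φ : SFm (RelLang S ar) 0 0) (k : ℕ) (hk : 1 ≤ k) (h : FamK φ k) :
    ∃ C : ℕ, ∀ (V : Type) (R : Interp S ar V), Finite V → (∃ _ : Fintype V, SatM φ R) → Dec R k C := by
  obtain ⟨r, hr⟩ := exists_ar ar
  obtain ⟨q₀, hq₀⟩ := down φ k
  obtain ⟨N, hN, C, hC⟩ := cls_bdd (k := k) (N₀ := 2 * k + r + 4) hr
    (fun (V : Type) (R : Interp S ar V) => ∃ _ : Fintype V, SatM φ R)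
    (fun q => h.any q) ⟨q₀, fun V R _ hs q t hq ht u hu i => by
      obtain ⟨_, hs⟩ := hs
      exact ⟨Fintype.ofFinite _, @hq₀ V _ R hs q t hq ht u hu i (Fintype.ofFinite _)⟩⟩
  exact ⟨C, fun V R _ hs => dec_of hr hN hk (hC V R inferInstance hs)⟩

/-- G: the upper bound -/
theorem upper [Finite S] (φ : SFm (RelLang S ar) 0 0) (k : ℕ) (hk : 1 ≤ k) (h : FamK φ k) :
    ∃ C : ℕ, ∀ n, 1 ≤ n → countM φ n ^ k ≤ C ^ n * n ^ ((k - 1) * n) := by
  obtain ⟨C, hC⟩ := exists_dec φ k hk h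
  obtain ⟨D, hD⟩ := count_dec (S := S) (ar := ar) k C hk
  refine ⟨D, fun n hn => le_trans (Nat.pow_le_pow_left ?_ k) (hD n hn)⟩
  have : Finite (Interp S ar (Fin n)) := Pi.finite
  unfold countM
  refine Nat.card_le_card_of_injective (fun R : {R : Interp S ar (Fin n) // SatM φ R} =>
    (⟨R.1, hC (Fin n) R.1 inferInstance ⟨inferInstance, R.2⟩⟩ : {R : Interp S ar (Fin n) // Dec R k C})) ?_
  intro a b hab
  exact Subtype.ext (congrArg (fun x : {R : Interp S ar (Fin n) // Dec R k C} => x.1) hab)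

end Pool.Agent.Helper53.AJ
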