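import Pool.Agent.Helper53.AJ.Lower
import Pool.Agent.Helper83.AJ.Res

/-!
# Growth of the number of models: the lower bound on a residue class
-/

set_option autoImplicit false

namespace Pool.Agent.Helper53.AJ

open FirstOrder Pool.Agent.Helper20.Spectra Pool.Agent.Helper58.QD Pool.Agent.Helper14.SS
open Pool.Agent.Helper31.QD (Au)
open Pool.Agent.Helper38.MC (AuG)
open Pool.Agent.Helper40.MCM
open Pool.Agent.Helper40.MC (FinAP)

variable {S : Type} {ar : S → ℕ}

/-- one large model without families of smaller blocks gives the lower bound on its class modulo `k` -/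
theorem low_core [Finite S] (φ : SFm (RelLang S ar) 0 0) (k : ℕ) (hk : 2 ≤ k) : ∃ Q₀ : ℕ, ∀ Q, Q₀ ≤ Q →
    ∀ n : ℕ, 1 ≤ n → ∀ R : Interp S ar (Fin n), SatM φ R →
    (∀ (t' : ℕ) (v : Fin Q × Fin t' → Fin n), 1 ≤ t' → t' < k → ¬ Hm R v) →
    ∀ u : Fin Q × Fin k → Fin n, Hm R u →
    ∃ C : ℕ, ∀ M, (n + k * n + k * M) ^ ((k - 1) * (n + k * n + k * M)) ≤
      C ^ (n + k * n + k * M) * countM φ (n + k * n + k * M) ^ k := by
  classical
  obtain ⟨r, hr⟩ := exists_ar ar
  obtain ⟨q₂, hq₂⟩ := up φ k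
  set N := 2 * k + r + 4 with hNd
  refine ⟨max q₂ N, fun Q hQd n hn1 R hR hno' u hu => ?_⟩
  obtain ⟨t, rfl⟩ : ∃ t, t = k := ⟨k, rfl⟩
  have ht1 : 1 ≤ t := by omega
  -- the pumped structures
  refine ⟨3 ^ t * t ^ t * 2 ^ (n * t), fun M => ?_⟩
  obtain ⟨V', _, R', u', ι, hsat, hcard, hu', hι, hιR, hιu⟩ := hq₂ (Fin n) R hR Q
    (le_trans (le_max_left _ _) hQd) u hu (M + n)
  rw [Fintype.card_fin] at hcard
  have hirr : Irr R' u' := by
    refine ⟨hu', ht1, fun t' e he h1 h2 h3 => ?_⟩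
    have h4 := h3.fewer53 (Fin.castAdd (M + n) : Fin Q → Fin (Q + (M + n))) (Fin.castAdd_injective _ _)
    have h5 : Hm R' (fun p : Fin Q × Fin t' => ι (u (p.1, e p.2))) := by
      have : (fun p : Fin Q × Fin t' => ι (u (p.1, e p.2))) = fun p => u' (Fin.castAdd (M + n) p.1, e p.2) := by
        funext p
        exact hιu _ _
      rw [this]
      exact h4
    exact hno' t' _ h1 h2 (hm_comap hι hιR h5)
  have hBig : Big R' t N u' := ⟨hirr, le_rfl, (le_trans (le_max_right _ _) hQd).trans (Nat.le_add_right _ _)⟩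
  obtain ⟨q', t', w, hw, hsub⟩ := exists_max (by omega) hBig
  have hNle : 2 * t + r + 4 ≤ N := le_rfl
  -- the blocks of `w` have `t` points
  have hQ0 : 0 < Q + (M + n) := by
    have : N ≤ Q := le_trans (le_max_right _ _) hQd
    omega
  obtain ⟨⟨j, y⟩, hj⟩ := hsub ⟨(⟨0, hQ0⟩, ⟨0, ht1⟩), rfl⟩
  have ht' : t' = t := by
    refine le_antisymm hw.1.2.1 ?_
    choose g hg using meet hr hNle hw.1.1.1 hw.1.2.1 hw.1.2.2 hirr le_rfl hBig.2.2 hj
    have hginj : Function.Injective g := by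
      intro a b hab
      have h1 := hg a
      rw [hab, ← hg b] at h1
      have h2 := hu'.1 h1
      rw [Prod.mk.injEq] at h2
      exact h2.2
    have := Fintype.card_le_of_injective g hginj
    rwa [Fintype.card_fin, Fintype.card_fin] at this
  subst ht'
  have hcard_w : (Q + (M + n)) * t' ≤ q' * t' := by
    have h1 : Fintype.card (Set.range w) = q' * t' := by
      rw [← Fintype.card_congr (Equiv.ofInjective w hw.1.1.1.1), Fintype.card_prod, Fintype.card_fin, Fintype.card_fin]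
    have h2 : Fintype.card (Set.range u') = (Q + (M + n)) * t' := by
      rw [← Fintype.card_congr (Equiv.ofInjective u' hu'.1), Fintype.card_prod, Fintype.card_fin, Fintype.card_fin]
    rw [← h1, ← h2]
    exact Set.card_le_card hsub
  have hqV : q' * t' ≤ Fintype.card V' := by
    have := Fintype.card_le_of_injective w hw.1.1.1.1
    rwa [Fintype.card_prod, Fintype.card_fin, Fintype.card_fin] at this
  have hexp : (Q + (M + n)) * t' = Q * t' + (M + n) * t' := by ring
  have hnt : n ≤ (M + n) * t' := by nlinarith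
  have hbig : Fintype.card V' < 2 * (q' * t') := by
    have : 0 < Q * t' := Nat.mul_pos (by omega) ht1
    omega
  have haut := card_aut hr hNle hw hbig
  -- transfer to `Fin`
  let e : V' ≃ Fin (Fintype.card V') := Fintype.equivFin V'
  have hsat' : SatM φ (fun s w => R' s (e.symm ∘ w)) := (satM_equiv φ e R').2 hsat
  have hfac := factorial_leM hsat'
  have hAu : Nat.card (AuG (fun s (w : Fin (ar s) → Fin (Fintype.card V')) => R' s (e.symm ∘ w))) ≤ Nat.card (AuG R') := by
    have : Finite (AuG R') := inferInstance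
    refine Nat.card_le_card_of_injective (fun σ => (⟨(e.trans (σ : Equiv.Perm (Fin (Fintype.card V')))).trans e.symm,
      fun s z => ?_⟩ : AuG R')) ?_
    · have h1 : R' s (⇑e.symm ∘ (⇑(σ : Equiv.Perm (Fin (Fintype.card V'))) ∘ (⇑e ∘ z))) ↔
          R' s (⇑e.symm ∘ (⇑e ∘ z)) := σ.2 s (e ∘ z)
      have e1 : (⇑e.symm ∘ (⇑(σ : Equiv.Perm (Fin (Fintype.card V'))) ∘ (⇑e ∘ z))) =
          ⇑((e.trans (σ : Equiv.Perm (Fin (Fintype.card V')))).trans e.symm) ∘ z := rfl
      have e2 : (⇑e.symm ∘ (⇑e ∘ z)) = z := by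
        funext a
        exact e.symm_apply_apply _
      rw [e1, e2] at h1
      exact h1
    · intro σ τ hst
      apply Subtype.ext
      ext z
      have h1 := congrArg (fun x : AuG R' => e ((x : Equiv.Perm V') (e.symm z))) hst
      simpa using congrArg Fin.val h1
  have hn' : n + t' * n + t' * M = Fintype.card V' := by
    rw [hcard]
    ring
  rw [hn']
  refine low_num (q := q') (F := (Fintype.card V').factorial) (G := Nat.card (AuG R')) ht1 (by omega) hqV
    (by omega) (Pool.Agent.Helper83.FM.pow_self_le _) haut ?_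
  exact hfac.trans (Nat.mul_le_mul_left _ hAu)


/-- the lower bound on a residue class, for all large `n` of the class modulo `k` -/
theorem lower_res [Finite S] (φ : SFm (RelLang S ar) 0 0) (k p ρ : ℕ) (hk : 2 ≤ k) (hkp : k ∣ p) (h : FamR φ k p ρ)
    (h' : ¬ FamR φ (k - 1) p ρ) :
    ∃ C n₁ : ℕ, ∀ n, n₁ ≤ n → n % k = ρ % k → n ^ ((k - 1) * n) ≤ C ^ n * countM φ n ^ k := by
  classical
  obtain ⟨Q₀, hcore⟩ := low_core φ k hk
  unfold FamR at h'
  push Not at h'
  obtain ⟨q₁, hq₁⟩ := h'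
  obtain ⟨n₀, hn₀⟩ := h (max q₁ Q₀)
  obtain ⟨n, hn, hnp, R, hR, hno⟩ := hq₁ (max n₀ 1)
  obtain ⟨t, ht1, htk, u, hu⟩ := hn₀ n (le_trans (le_max_left _ _) hn) hnp R hR
  have hno' : ∀ (t' : ℕ) (v : Fin (max q₁ Q₀) × Fin t' → Fin n), 1 ≤ t' → t' < k → ¬ Hm R v := fun t' v h1 h2 h3 =>
    hno t' h1 (by omega) ⟨_, h3.fewer53 (Fin.castLE (le_max_left q₁ Q₀)) (Fin.castLE_injective (le_max_left q₁ Q₀))⟩
  obtain rfl : t = k := by
    by_contra hne
    exact hno' t u ht1 (by omega) hu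
  obtain ⟨C, hC⟩ := hcore (max q₁ Q₀) (le_max_right _ _) n (le_trans (le_max_right _ _) hn) R hR hno' u hu
  refine ⟨C, n + t * n, fun m hm hmod => ?_⟩
  have h1 : n % t = ρ % t := by
    rw [← hnp, Nat.mod_mod_of_dvd _ hkp]
  have h2 : m % t = (n + t * n) % t := by
    rw [hmod, ← h1, Nat.add_mul_mod_self_left]
  obtain ⟨M, hM⟩ : t ∣ m - (n + t * n) := (Nat.modEq_iff_dvd' hm).1 h2.symm
  have h3 : m = n + t * n + t * M := by omega
  rw [h3]
  exact hC M

end Pool.Agent.Helper53.AJ
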