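import Pool.Agent.Helper83.AJ.AllN1
import Pool.Agent.Helper53.AJ.LowRes

/-!
# Growth of the number of models at all `n`: the theorem
-/

set_option autoImplicit false

namespace Pool.Agent.Helper53.AJ

open FirstOrder Pool.Agent.Helper20.Spectra Pool.Agent.Helper58.QD Pool.Agent.Helper14.SS
open Pool.Agent.Helper40.MCM
open Pool.Agent.Helper40.MC (FinAP)

variable {S : Type} {ar : S → ℕ}

/-- **The number of models at all `n`** -/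
theorem all_n [Finite S] (φ : SFm (RelLang S ar) 0 0) (h : FamBdd φ) :
    ∃ k, 1 ≤ k ∧ FinAP k (specM φ) ∧ ∃ (p : ℕ) (j : ℕ → ℕ), 1 ≤ p ∧ (∀ n, j (n + p) = j n) ∧
      (∀ n, 1 ≤ j n ∧ j n ≤ k) ∧ (∃ n, j n = k) ∧ ∃ (C d : ℕ) (P : Fin d → Polynomial ℚ), ∀ᶠ n : ℕ in Filter.atTop,
        (j n = 1 → (countM φ n : ℚ) = ∑ i, (P i).eval (n : ℚ) * ((i : ℕ) + 1 : ℚ) ^ n) ∧
        (2 ≤ j n → countM φ n ^ j n ≤ C ^ n * n ^ ((j n - 1) * n) ∧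
          n ^ ((j n - 1) * n) ≤ C ^ n * countM φ n ^ j n) :=
  all_n_of2 (fun φ {k p ρ} hk hkp h1 h2 => by
    obtain ⟨C, n₁, hC⟩ := lower_res φ k p ρ hk hkp h1 h2
    exact ⟨C, n₁, fun n hn hnp => hC n hn (by rw [← hnp, Nat.mod_mod_of_dvd _ hkp])⟩) φ h

end Pool.Agent.Helper53.AJ
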