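import Pool.Agent.Helper53.AJ.Defs

/-!
# Growth of the number of models: elementary properties of homogeneous families
-/

set_option autoImplicit false

namespace Pool.Agent.Helper53.AJ

open FirstOrder Pool.Agent.Helper20.Spectra Pool.Agent.Helper58.QD Pool.Agent.Helper14.SS
open Pool.Agent.Helper31.QD (Au)
open Pool.Agent.Helper40.MCM
open Pool.Agent.Helper40.MC (FinAP)

variable {S : Type} {ar : S → ℕ}

/-- families of a structure `R` embedded into `R'` by `ι` -/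
theorem hm_comap {V V' : Type} {R : Interp S ar V} {R' : Interp S ar V'} {ι : V → V'}
    (hι : Function.Injective ι) (hR : ∀ s w, R' s (ι ∘ w) ↔ R s w) {q t : ℕ} {w : Fin q × Fin t → V}
    (hw : Hm R' (fun p => ι (w p))) : Hm R w := by
  have hinj : Function.Injective w := fun a b h => hw.1 (congrArg ι h)
  refine ⟨hinj, fun π σ h1 h2 => ?_⟩
  intro s z
  let τ : Equiv.Perm V' := σ.viaEmbedding ⟨ι, hι⟩
  have hτ : ∀ y : V, τ (ι y) = ι (σ y) := fun y => σ.viaEmbedding_apply ⟨ι, hι⟩ y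
  have hτ' : ∀ y : V', y ∉ Set.range ι → τ y = y := fun y hy =>
    σ.viaEmbedding_apply_of_notMem ⟨ι, hι⟩ y hy
  have h3 : Au R' τ := by
    refine hw.2 π τ (fun i x => ?_) (fun y hy => ?_)
    · show τ (ι (w (i, x))) = ι (w (π i, x))
      rw [hτ, h1]
    · by_cases hy' : y ∈ Set.range ι
      · obtain ⟨y0, rfl⟩ := hy'
        rw [hτ, h2 y0 fun p hp => hy p (congrArg ι hp)]
      · exact hτ' y hy'
  have h4 := h3 s (ι ∘ z)
  have e : (⇑τ ∘ (ι ∘ z)) = ι ∘ (σ ∘ z) := by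
    funext a
    exact hτ (z a)
  rw [e, hR, hR] at h4
  exact h4

/-- families are transported by isomorphisms -/
theorem hm_map {V V' : Type} {R : Interp S ar V} {R' : Interp S ar V'} (e : V ≃ V')
    (hR : ∀ s w, R' s (e ∘ w) ↔ R s w) {q t : ℕ} {w : Fin q × Fin t → V}
    (hw : Hm R w) : Hm R' (fun p => e (w p)) := by
  refine hm_comap (R := R') (R' := R) (ι := e.symm) e.symm.injective (fun s z => ?_) ?_
  · rw [← hR s (e.symm ∘ z)]
    have : (⇑e ∘ (⇑e.symm ∘ z)) = z := by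
      funext a
      exact e.apply_symm_apply _
    rw [this]
  · have : (fun p => e.symm (e (w p))) = w := by
      funext p
      exact e.symm_apply_apply _
    rw [this]
    exact hw

theorem irr_map {V V' : Type} {R : Interp S ar V} {R' : Interp S ar V'} (e : V ≃ V')
    (hR : ∀ s w, R' s (e ∘ w) ↔ R s w) {q t : ℕ} {w : Fin q × Fin t → V}
    (hw : Irr R w) : Irr R' (fun p => e (w p)) := by
  refine ⟨hm_map e hR hw.1, hw.2.1, fun t' f hf h1 h2 h3 => hw.2.2 t' f hf h1 h2 ?_⟩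
  exact hm_comap e.injective hR h3

/-- fewer blocks -/
theorem Hm.fewer53 {V : Type} {R : Interp S ar V} {q t : ℕ} {u : Fin q × Fin t → V} (hu : Hm R u)
    {q' : ℕ} (g : Fin q' → Fin q) (hg : Function.Injective g) : Hm R (fun p : Fin q' × Fin t => u (g p.1, p.2)) := by
  have hinj : Function.Injective (fun p : Fin q' × Fin t => u (g p.1, p.2)) := by
    rintro ⟨i, x⟩ ⟨j, y⟩ h
    have h1 := hu.1 h
    rw [Prod.mk.injEq] at h1
    exact Prod.ext (hg h1.1) h1.2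
  refine ⟨hinj, fun π σ h1 h2 => ?_⟩
  refine hu.2 (π.viaEmbedding ⟨g, hg⟩) σ (fun i x => ?_) (fun z hz => h2 z fun p => hz _)
  by_cases hi : i ∈ Set.range g
  · obtain ⟨i0, rfl⟩ := hi
    have h3 : π.viaEmbedding ⟨g, hg⟩ (g i0) = g (π i0) := π.viaEmbedding_apply ⟨g, hg⟩ i0
    rw [h3]
    exact h1 i0 x
  · have h3 : π.viaEmbedding ⟨g, hg⟩ i = i := π.viaEmbedding_apply_of_notMem ⟨g, hg⟩ i hi
    rw [h3]
    refine h2 _ fun p hp => hi ⟨p.1, ?_⟩
    have h4 := hu.1 hp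
    rw [Prod.mk.injEq] at h4
    exact h4.1

theorem hfam_iff {n q t : ℕ} {R : Interp S ar (Fin n)} :
    HFam R q t ↔ ∃ u : Fin q × Fin t → Fin n, Hm R u := Iff.rfl

/-- the arities are bounded -/
theorem exists_ar [Finite S] (ar : S → ℕ) : ∃ r, ∀ s, ar s ≤ r := by
  obtain ⟨r, hr⟩ := (Set.finite_range ar).bddAbove
  exact ⟨r, fun s => hr ⟨s, rfl⟩⟩

/-- all large models, on arbitrary finite sets -/
theorem FamK.any {φ : SFm (RelLang S ar) 0 0} {k : ℕ} (h : FamK φ k) (q : ℕ) : ∃ n₀ : ℕ,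
    ∀ (V : Type) (R : Interp S ar V), Finite V → (∃ _ : Fintype V, SatM φ R) → n₀ ≤ Nat.card V →
      ∃ t, 1 ≤ t ∧ t ≤ k ∧ ∃ u : Fin q × Fin t → V, Hm R u := by
  obtain ⟨n₀, hn₀⟩ := h q
  refine ⟨n₀, fun V R _ hs hV => ?_⟩
  obtain ⟨_, hs⟩ := hs
  rw [Nat.card_eq_fintype_card] at hV
  let e : V ≃ Fin (Fintype.card V) := Fintype.equivFin V
  obtain ⟨t, ht1, htk, u, hu⟩ := hn₀ _ hV (fun s w => R s (e.symm ∘ w)) ((satM_equiv φ e R).2 hs)
  exact ⟨t, ht1, htk, _, hm_map (R := fun s w => R s (e.symm ∘ w)) (R' := R) e.symm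
    (fun s w => Iff.rfl) hu⟩

end Pool.Agent.Helper53.AJ
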