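import Mathlib

/-!
# The number of equivalence relations: an upper bound
-/

set_option autoImplicit false

namespace Pool.Agent.Helper53.AJ

/-- the number of idempotent maps with a given image -/
theorem card_idem_h53 (n : ℕ) (T : Finset (Fin n)) :
    Nat.card {f : Fin n → Fin n // (∀ x, f (f x) = f x) ∧ Set.range f = T} ≤ T.card ^ (n - T.card) := by
  classical
  let Φ : {f : Fin n → Fin n // (∀ x, f (f x) = f x) ∧ Set.range f = T} → ({x // x ∉ T} → T) := fun f x =>
    ⟨f.1 x.1, by
      have h : f.1 x.1 ∈ Set.range f.1 := ⟨_, rfl⟩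
      rw [f.2.2] at h
      exact h⟩
  have hΦ : Function.Injective Φ := by
    intro f g h
    apply Subtype.ext
    funext x
    by_cases hx : x ∈ T
    · have h1 : x ∈ Set.range f.1 := by
        rw [f.2.2]
        exact hx
      have h2 : x ∈ Set.range g.1 := by
        rw [g.2.2]
        exact hx
      obtain ⟨y, rfl⟩ := h1
      obtain ⟨z, hz⟩ := h2
      rw [f.2.1 y, ← hz, g.2.1 z]
    · have h1 := congrFun h ⟨x, hx⟩
      exact congrArg Subtype.val h1
  have h1 := Nat.card_le_card_of_injective Φ hΦ
  refine h1.trans (le_of_eq ?_)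
  rw [Nat.card_eq_fintype_card, Fintype.card_fun, Fintype.card_coe, Fintype.card_subtype_compl, Fintype.card_fin,
    Fintype.card_coe]

/-- the number of equivalence relations -/
theorem bell_le (n : ℕ) : Nat.card (Setoid (Fin n)) ≤ ∑ m ∈ Finset.range (n + 1), n.choose m * m ^ (n - m) := by
  classical
  -- the map to the least element of the class
  have hex : ∀ s : Setoid (Fin n), ∃ f : Fin n → Fin n, (∀ x, f (f x) = f x) ∧ ∀ x y, s x y ↔ f x = f y := by
    intro s
    refine ⟨fun x => (Quotient.mk s x).out, fun x => ?_, fun x y => ?_⟩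
    · show (Quotient.mk s (Quotient.mk s x).out).out = _
      rw [Quotient.out_eq]
    · show s x y ↔ (Quotient.mk s x).out = (Quotient.mk s y).out
      rw [Quotient.out_inj]
      exact (Quotient.eq (r := s)).symm
  choose F hF1 hF2 using hex
  let Φ : Setoid (Fin n) → (T : Finset (Fin n)) × {f : Fin n → Fin n // (∀ x, f (f x) = f x) ∧ Set.range f = T} := fun s =>
    ⟨Finset.univ.image (F s), ⟨F s, hF1 s, by simp⟩⟩
  have hΦ : Function.Injective Φ := by
    intro s s' h
    have h1 : F s = F s' := by
      have := congrArg (fun p : (T : Finset (Fin n)) × {f : Fin n → Fin n // (∀ x, f (f x) = f x) ∧ Set.range f = T} =>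
        (p.2 : Fin n → Fin n)) h
      exact this
    ext x y
    rw [hF2 s, hF2 s', h1]
  have h1 := Nat.card_le_card_of_injective Φ hΦ
  rw [Nat.card_sigma] at h1
  refine h1.trans ?_
  calc ∑ T : Finset (Fin n), Nat.card {f : Fin n → Fin n // (∀ x, f (f x) = f x) ∧ Set.range f = T}
      ≤ ∑ T : Finset (Fin n), T.card ^ (n - T.card) := Finset.sum_le_sum fun T _ => card_idem_h53 n T
    _ = ∑ T ∈ (Finset.univ : Finset (Fin n)).powerset, T.card ^ (n - T.card) := by
        rw [Finset.powerset_univ]
    _ = ∑ m ∈ Finset.range (n + 1), n.choose m * m ^ (n - m) := by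
        rw [Finset.sum_powerset_apply_card (fun m => m ^ (n - m)), Finset.card_univ, Fintype.card_fin]
        simp only [smul_eq_mul]

end Pool.Agent.Helper53.AJ
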