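import Pool.Agent.Helper40.MC.JDefs

/-!
# Growth of the number of models: canonical blocks, definitions
-/

set_option autoImplicit false

namespace Pool.Agent.Helper53.AJ

open FirstOrder Pool.Agent.Helper20.Spectra Pool.Agent.Helper58.QD Pool.Agent.Helper14.SS
open Pool.Agent.Helper31.QD (Au)
open Pool.Agent.Helper40.MCM
open Pool.Agent.Helper40.MC (FinAP)

variable {S : Type} {ar : S → ℕ}

/-- a homogeneous family: the blocks `u (i, ·)` are disjoint, and all permutations of the blocks are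
automorphisms -/
def Hm {V : Type} (R : Interp S ar V) {q t : ℕ} (u : Fin q × Fin t → V) : Prop :=
  Function.Injective u ∧
    ∀ (π : Equiv.Perm (Fin q)) (σ : Equiv.Perm V), (∀ i x, σ (u (i, x)) = u (π i, x)) →
      (∀ z, (∀ p, u p ≠ z) → σ z = z) → Au R σ

/-- irreducible: the parts of the blocks are not homogeneous -/
def Irr {V : Type} (R : Interp S ar V) {q t : ℕ} (u : Fin q × Fin t → V) : Prop :=
  Hm R u ∧ 1 ≤ t ∧ ∀ (t' : ℕ) (e : Fin t' → Fin t), Function.Injective e → 1 ≤ t' → t' < t →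
    ¬ Hm R (fun p : Fin q × Fin t' => u (p.1, e p.2))

/-- big irreducible families -/
def Big {V : Type} (R : Interp S ar V) (k N : ℕ) {q t : ℕ} (u : Fin q × Fin t → V) : Prop :=
  Irr R u ∧ t ≤ k ∧ N ≤ q

/-- two points in one big irreducible family -/
def Rl {V : Type} (R : Interp S ar V) (k N : ℕ) (z z' : V) : Prop :=
  ∃ (q t : ℕ) (u : Fin q × Fin t → V), Big R k N u ∧ z ∈ Set.range u ∧ z' ∈ Set.range u

/-- the substructure -/
def rs {V : Type} (R : Interp S ar V) (A : Set V) : Interp S ar A := fun s w => R s (fun i => (w i : V))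

/-- the points outside the block `i` -/
def off {V : Type} {q t : ℕ} (u : Fin q × Fin t → V) (i : Fin q) : Set V := {z | ∀ x, u (i, x) ≠ z}

/-- maximal big irreducible families -/
def Mx {V : Type} (R : Interp S ar V) (k N : ℕ) {q t : ℕ} (w : Fin q × Fin t → V) : Prop :=
  Big R k N w ∧ ∀ (q' t' : ℕ) (w' : Fin q' × Fin t' → V), Big R k N w' →
    Set.range w ⊆ Set.range w' → Set.range w' ⊆ Set.range w

/-- a decomposition into `C` homogeneous families of blocks of at most `k` points -/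
def Dec {V : Type} (R : Interp S ar V) (k C : ℕ) : Prop :=
  ∃ (q t : Fin C → ℕ) (v : (c : Fin C) × (Fin (q c) × Fin (t c)) → V), Function.Bijective v ∧
    (∀ c, t c ≤ k) ∧ ∀ c, Hm R (fun p => v ⟨c, p⟩)

/-- all large models have homogeneous families of blocks of at most `k` points -/
def FamK (φ : SFm (RelLang S ar) 0 0) (k : ℕ) : Prop :=
  ∀ q : ℕ, ∃ n₀ : ℕ, ∀ n, n₀ ≤ n → ∀ R : Interp S ar (Fin n), SatM φ R →
    ∃ t, 1 ≤ t ∧ t ≤ k ∧ HFam R q t

/-- the permutation of the blocks -/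
noncomputable def bm {V : Type} {q t : ℕ} (u : Fin q × Fin t → V) (hu : Function.Injective u)
    (π : Equiv.Perm (Fin q)) : Equiv.Perm V :=
  Equiv.Perm.viaEmbedding (π.prodCongr (Equiv.refl (Fin t))) ⟨u, hu⟩

theorem bm_apply {V : Type} {q t : ℕ} (u : Fin q × Fin t → V) (hu : Function.Injective u)
    (π : Equiv.Perm (Fin q)) (i : Fin q) (x : Fin t) : bm u hu π (u (i, x)) = u (π i, x) :=
  Equiv.Perm.viaEmbedding_apply (π.prodCongr (Equiv.refl (Fin t))) ⟨u, hu⟩ (i, x)

theorem bm_off {V : Type} {q t : ℕ} (u : Fin q × Fin t → V) (hu : Function.Injective u)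
    (π : Equiv.Perm (Fin q)) (z : V) (hz : ∀ p, u p ≠ z) : bm u hu π z = z :=
  Equiv.Perm.viaEmbedding_apply_of_notMem _ ⟨u, hu⟩ z (by
    rintro ⟨p, hp⟩
    exact hz p hp)

theorem bm_eq {V : Type} {q t : ℕ} {u : Fin q × Fin t → V} (hu : Function.Injective u)
    {π : Equiv.Perm (Fin q)} {σ : Equiv.Perm V} (h1 : ∀ i x, σ (u (i, x)) = u (π i, x))
    (h2 : ∀ z, (∀ p, u p ≠ z) → σ z = z) : σ = bm u hu π := by
  ext z
  by_cases hz : ∃ p, u p = z
  · obtain ⟨⟨i, x⟩, rfl⟩ := hz
    rw [h1, bm_apply]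
  · push Not at hz
    rw [h2 z hz, bm_off u hu π z hz]

theorem bm_mul {V : Type} {q t : ℕ} {u : Fin q × Fin t → V} (hu : Function.Injective u)
    (π π' : Equiv.Perm (Fin q)) : bm u hu (π * π') = bm u hu π * bm u hu π' := by
  symm
  refine bm_eq hu (fun i x => ?_) (fun z hz => ?_)
  · rw [Equiv.Perm.mul_apply, bm_apply, bm_apply, Equiv.Perm.mul_apply]
  · rw [Equiv.Perm.mul_apply, bm_off u hu _ z hz, bm_off u hu _ z hz]

theorem bm_one {V : Type} {q t : ℕ} {u : Fin q × Fin t → V} (hu : Function.Injective u) :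
    bm u hu 1 = 1 := by
  symm
  exact bm_eq hu (fun i x => rfl) (fun z hz => rfl)

theorem Hm.bm {V : Type} {R : Interp S ar V} {q t : ℕ} {u : Fin q × Fin t → V} (h : Hm R u)
    (π : Equiv.Perm (Fin q)) : Au R (bm u h.1 π) :=
  h.2 π _ (bm_apply u h.1 π) (bm_off u h.1 π)

/-- swaps of two blocks suffice -/
theorem hm_of_swap {V : Type} {R : Interp S ar V} {q t : ℕ} {u : Fin q × Fin t → V}
    (hu : Function.Injective u) (h : ∀ a b : Fin q, a ≠ b → Au R (AJ.bm u hu (Equiv.swap a b))) :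
    Hm R u := by
  refine ⟨hu, fun π σ h1 h2 => ?_⟩
  rw [bm_eq hu h1 h2]
  clear h1 h2 σ
  induction π using Equiv.Perm.swap_induction_on with
  | one =>
    rw [bm_one]
    exact fun _ _ => Iff.rfl
  | swap_mul π a b hab ih =>
    rw [bm_mul]
    exact (h a b hab).mul ih

end Pool.Agent.Helper53.AJ
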