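import Pool.Agent.Helper53.AJ.Basic
import Pool.Agent.Helper12.AJ.BC
import Pool.Agent.Helper20.AJ.F

/-!
# Growth of the number of models: the lower bound
-/

set_option autoImplicit false

namespace Pool.Agent.Helper53.AJ

open FirstOrder Pool.Agent.Helper20.Spectra Pool.Agent.Helper58.QD Pool.Agent.Helper14.SS
open Pool.Agent.Helper31.QD (Au)
open Pool.Agent.Helper38.MC (AuG)
open Pool.Agent.Helper40.MCM
open Pool.Agent.Helper40.MC (FinAP)

variable {S : Type} {ar : S → ℕ}

/-- the number of automorphisms of a structure which consists mostly of one family of `k`-blocks -/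
theorem card_aut {V : Type} [Fintype V] {R : Interp S ar V} {r k N : ℕ} (hr : ∀ s, ar s ≤ r)
    (hN : 2 * k + r + 4 ≤ N) {q : ℕ} {w : Fin q × Fin k → V} (hw : Mx R k N w)
    (hbig : Fintype.card V < 2 * (q * k)) :
    Nat.card (AuG R) ≤ q ^ q * k ^ (q * k) * Fintype.card V ^ (Fintype.card V - q * k) := by
  classical
  have hk : 1 ≤ k := hw.1.1.2.1
  have hinj : Function.Injective w := hw.1.1.1.1
  -- an automorphism maps blocks to blocks
  have hcr : Fintype.card (Set.range w) = q * k := by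
    rw [← Fintype.card_congr (Equiv.ofInjective w hinj), Fintype.card_prod, Fintype.card_fin, Fintype.card_fin]
  have hblk : ∀ σ : AuG R, ∀ i : Fin q, ∃ j : Fin q, ∀ x, ∃ y, (σ : Equiv.Perm V) (w (i, x)) = w (j, y) := by
    intro σ i
    have hB : Big R k N (fun p => (σ : Equiv.Perm V) (w p)) :=
      ⟨irr_map (R := R) (R' := R) (σ : Equiv.Perm V) (fun s z => σ.2 s z) hw.1.1, hw.1.2.1, hw.1.2.2⟩
    have hmeet : (Set.range (fun p => (σ : Equiv.Perm V) (w p)) ∩ Set.range w).Nonempty := by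
      by_contra hcon
      rw [Set.not_nonempty_iff_eq_empty, ← Set.disjoint_iff_inter_eq_empty] at hcon
      have h1 : Fintype.card (Set.range (fun p => (σ : Equiv.Perm V) (w p))) = q * k := by
        rw [← Fintype.card_congr (Equiv.ofInjective _ hB.1.1.1), Fintype.card_prod, Fintype.card_fin,
          Fintype.card_fin]
      have h2 := Finset.card_union_of_disjoint (Set.disjoint_toFinset.2 hcon)
      rw [Set.toFinset_card, Set.toFinset_card, h1, hcr] at h2
      have h3 := Finset.card_le_univ ((Set.range (fun p => (σ : Equiv.Perm V) (w p))).toFinset ∪ (Set.range w).toFinset)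
      omega
    have hsub := max_of hr hN hw hB hmeet
    obtain ⟨⟨j, y⟩, hj⟩ := hsub ⟨(i, ⟨0, hk⟩), rfl⟩
    refine ⟨j, fun x => ?_⟩
    obtain ⟨y', hy'⟩ := meet hr hN hw.1.1.1 hw.1.2.1 hw.1.2.2 hB.1 hB.2.1 hB.2.2 hj x
    exact ⟨y', hy'⟩
  choose J hJ using hblk
  choose Y hY using hJ
  -- the injection
  let Φ : AuG R → (Fin q → Fin q) × (Fin q × Fin k → Fin k) × ({z : V // z ∉ Set.range w} → V) := fun σ =>
    (J σ, fun p => Y σ p.1 p.2, fun z => (σ : Equiv.Perm V) z)
  have hΦ : Function.Injective Φ := by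
    intro σ τ h
    apply Subtype.ext
    ext z
    have h1 : J σ = J τ := congrArg Prod.fst h
    have h2 : (fun p : Fin q × Fin k => Y σ p.1 p.2) = fun p => Y τ p.1 p.2 := congrArg (fun x => x.2.1) h
    have h3 : (fun z : {z : V // z ∉ Set.range w} => (σ : Equiv.Perm V) z.1) =
        fun z : {z : V // z ∉ Set.range w} => (τ : Equiv.Perm V) z.1 :=
      congrArg (fun x => x.2.2) h
    by_cases hz : z ∈ Set.range w
    · obtain ⟨⟨i, x⟩, rfl⟩ := hz
      rw [hY σ i x, hY τ i x, h1]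
      have h4 := congrFun h2 (i, x)
      simp only at h4
      rw [h4]
    · have h5 := congrFun h3 ⟨z, hz⟩
      exact h5
  have hc := Nat.card_le_card_of_injective Φ hΦ
  refine hc.trans (le_of_eq ?_)
  have hcc : Fintype.card {z : V // z ∉ Set.range w} = Fintype.card V - q * k := by
    rw [Fintype.card_subtype_compl, ← hcr]
  rw [Nat.card_eq_fintype_card, Fintype.card_prod, Fintype.card_prod, Fintype.card_fun, Fintype.card_fun,
    Fintype.card_fun, hcc, Fintype.card_prod, Fintype.card_fin, Fintype.card_fin, mul_assoc]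

/-- numerics -/
theorem low_num {k m n q F G N : ℕ} (hk : 1 ≤ k) (hn : 1 ≤ n) (hqk : q * k ≤ n) (hm : n - q * k ≤ m)
    (hF : n ^ n ≤ 3 ^ n * F) (hG : G ≤ q ^ q * k ^ (q * k) * n ^ (n - q * k)) (hN : F ≤ N * G) :
    n ^ ((k - 1) * n) ≤ (3 ^ k * k ^ k * 2 ^ (m * k)) ^ n * N ^ k := by
  have hq : q ≤ n := le_trans (Nat.le_mul_of_pos_right q hk) hqk
  have h1 : n ^ n ≤ 3 ^ n * (N * (q ^ q * k ^ n * n ^ m)) := by
    refine hF.trans (Nat.mul_le_mul_left _ (hN.trans (Nat.mul_le_mul_left _ (hG.trans ?_))))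
    exact Nat.mul_le_mul (Nat.mul_le_mul_left _ (Nat.pow_le_pow_right hk hqk)) (Nat.pow_le_pow_right hn hm)
  have h2 : (n ^ n) ^ k ≤ n ^ n * ((3 ^ k * k ^ k * 2 ^ (m * k)) ^ n * N ^ k) := by
    calc (n ^ n) ^ k ≤ (3 ^ n * (N * (q ^ q * k ^ n * n ^ m))) ^ k := Nat.pow_le_pow_left h1 k
      _ = (q ^ (q * k)) * ((3 ^ k * k ^ k) ^ n * (n ^ (m * k)) * N ^ k) := by
          simp only [mul_pow, ← pow_mul]
          rw [mul_comm n k]
          ring
      _ ≤ n ^ n * ((3 ^ k * k ^ k) ^ n * ((2 ^ n) ^ (m * k)) * N ^ k) := by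
          refine Nat.mul_le_mul ?_ (Nat.mul_le_mul_right _ (Nat.mul_le_mul_left _
            (Nat.pow_le_pow_left Nat.lt_two_pow_self.le _)))
          exact (Nat.pow_le_pow_left hq _).trans (Nat.pow_le_pow_right hn hqk)
      _ = n ^ n * ((3 ^ k * k ^ k * 2 ^ (m * k)) ^ n * N ^ k) := by
          rw [mul_pow (3 ^ k * k ^ k), ← pow_mul, ← pow_mul, mul_comm n (m * k)]
  have h3 : (n ^ n) ^ k = n ^ n * n ^ ((k - 1) * n) := by
    obtain ⟨k, rfl⟩ : ∃ k', k = k' + 1 := ⟨k - 1, by omega⟩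
    rw [Nat.add_sub_cancel, ← pow_mul, ← pow_add]
    congr 1
    ring
  rw [h3] at h2
  exact Nat.le_of_mul_le_mul_left h2 (by positivity)

/-- H: the lower bound, in an arithmetic progression with difference `k` -/
theorem lower_ap [Finite S] (φ : SFm (RelLang S ar) 0 0) (k : ℕ) (hk : 2 ≤ k) (h : FamK φ k)
    (h' : ¬ FamK φ (k - 1)) :
    ∃ C a : ℕ, ∀ m, (a + k * m) ^ ((k - 1) * (a + k * m)) ≤ C ^ (a + k * m) * countM φ (a + k * m) ^ k := by
  classical
  obtain ⟨r, hr⟩ := exists_ar ar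
  unfold FamK at h'
  push Not at h'
  obtain ⟨q₁, hq₁⟩ := h'
  obtain ⟨q₂, hq₂⟩ := up φ k
  set N := 2 * k + r + 4 with hNd
  set Q := max (max q₁ q₂) N with hQd
  obtain ⟨n₀, hn₀⟩ := h Q
  obtain ⟨n, hn, R, hR, hno⟩ := hq₁ (max n₀ 1)
  obtain ⟨t, ht1, htk, u, hu⟩ := hn₀ n (le_trans (le_max_left _ _) hn) R hR
  have hqQ : q₁ ≤ Q := le_trans (le_max_left _ _) (le_max_left _ _)
  have hno' : ∀ (t' : ℕ) (v : Fin Q × Fin t' → Fin n), 1 ≤ t' → t' < k → ¬ Hm R v := fun t' v h1 h2 h3 =>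
    hno t' h1 (by omega) ⟨_, h3.fewer53 (Fin.castLE hqQ) (Fin.castLE_injective hqQ)⟩
  obtain rfl : t = k := by
    by_contra hne
    exact hno' t u ht1 (by omega) hu
  -- the pumped structures
  refine ⟨3 ^ t * t ^ t * 2 ^ (n * t), n + t * n, fun M => ?_⟩
  obtain ⟨V', _, R', u', ι, hsat, hcard, hu', hι, hιR, hιu⟩ := hq₂ (Fin n) R hR Q
    (le_trans (le_max_right _ _) (le_max_left _ _)) u hu (M + n)
  rw [Fintype.card_fin] at hcard
  have hirr : Irr R' u' := by
    refine ⟨hu', ht1, fun t' e he h1 h2 h3 => ?_⟩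
    have h4 := h3.fewer53 (Fin.castAdd (M + n) : Fin Q → Fin (Q + (M + n))) (Fin.castAdd_injective _ _)
    have h5 : Hm R' (fun p : Fin Q × Fin t' => ι (u (p.1, e p.2))) := by
      have : (fun p : Fin Q × Fin t' => ι (u (p.1, e p.2))) = fun p => u' (Fin.castAdd (M + n) p.1, e p.2) := by
        funext p
        exact hιu _ _
      rw [this]
      exact h4
    exact hno' t' _ h1 h2 (hm_comap hι hιR h5)
  have hBig : Big R' t N u' := ⟨hirr, le_rfl, le_trans (le_max_right _ _) (Nat.le_add_right _ _)⟩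
  obtain ⟨q', t', w, hw, hsub⟩ := exists_max (by omega) hBig
  have hNle : 2 * t + r + 4 ≤ N := le_rfl
  -- the blocks of `w` have `t` points
  have hQ0 : 0 < Q + (M + n) := by
    have : N ≤ Q := le_max_right _ _
    omega
  obtain ⟨⟨j, y⟩, hj⟩ := hsub ⟨(⟨0, hQ0⟩, ⟨0, ht1⟩), rfl⟩
  have ht' : t' = t := by
    refine le_antisymm hw.1.2.1 ?_
    choose g hg using meet hr hNle hw.1.1.1 hw.1.2.1 hw.1.2.2 hirr le_rfl hBig.2.2 hj
    have hginj : Function.Injective g := by
      intro a b hab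
      have h1 := hg a
      rw [hab, ← hg b] at h1
      have h2 := hu'.1 h1
      rw [Prod.mk.injEq] at h2
      exact h2.2
    have := Fintype.card_le_of_injective g hginj
    rwa [Fintype.card_fin, Fintype.card_fin] at this
  subst ht'
  have hcard_w : (Q + (M + n)) * t' ≤ q' * t' := by
    have h1 : Fintype.card (Set.range w) = q' * t' := by
      rw [← Fintype.card_congr (Equiv.ofInjective w hw.1.1.1.1), Fintype.card_prod, Fintype.card_fin, Fintype.card_fin]
    have h2 : Fintype.card (Set.range u') = (Q + (M + n)) * t' := by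
      rw [← Fintype.card_congr (Equiv.ofInjective u' hu'.1), Fintype.card_prod, Fintype.card_fin, Fintype.card_fin]
    rw [← h1, ← h2]
    exact Set.card_le_card hsub
  have hqV : q' * t' ≤ Fintype.card V' := by
    have := Fintype.card_le_of_injective w hw.1.1.1.1
    rwa [Fintype.card_prod, Fintype.card_fin, Fintype.card_fin] at this
  have hn1 : 1 ≤ n := le_trans (le_max_right _ _) hn
  have hexp : (Q + (M + n)) * t' = Q * t' + (M + n) * t' := by ring
  have hnt : n ≤ (M + n) * t' := by nlinarith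
  have hbig : Fintype.card V' < 2 * (q' * t') := by
    have : 0 < Q * t' := Nat.mul_pos (by omega) ht1
    omega
  have haut := card_aut hr hNle hw hbig
  -- transfer to `Fin`
  let e : V' ≃ Fin (Fintype.card V') := Fintype.equivFin V'
  have hsat' : SatM φ (fun s w => R' s (e.symm ∘ w)) := (satM_equiv φ e R').2 hsat
  have hfac := factorial_leM hsat'
  have hAu : Nat.card (AuG (fun s (w : Fin (ar s) → Fin (Fintype.card V')) => R' s (e.symm ∘ w))) ≤ Nat.card (AuG R') := by
    have : Finite (AuG R') := inferInstance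
    refine Nat.card_le_card_of_injective (fun σ => (⟨(e.trans (σ : Equiv.Perm (Fin (Fintype.card V')))).trans e.symm,
      fun s z => ?_⟩ : AuG R')) ?_
    · have h1 : R' s (⇑e.symm ∘ (⇑(σ : Equiv.Perm (Fin (Fintype.card V'))) ∘ (⇑e ∘ z))) ↔
          R' s (⇑e.symm ∘ (⇑e ∘ z)) := σ.2 s (e ∘ z)
      have e1 : (⇑e.symm ∘ (⇑(σ : Equiv.Perm (Fin (Fintype.card V'))) ∘ (⇑e ∘ z))) =
          ⇑((e.trans (σ : Equiv.Perm (Fin (Fintype.card V')))).trans e.symm) ∘ z := rfl
      have e2 : (⇑e.symm ∘ (⇑e ∘ z)) = z := by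
        funext a
        exact e.symm_apply_apply _
      rw [e1, e2] at h1
      exact h1
    · intro σ τ hst
      apply Subtype.ext
      ext z
      have h1 := congrArg (fun x : AuG R' => e ((x : Equiv.Perm V') (e.symm z))) hst
      simpa using congrArg Fin.val h1
  have hn' : n + t' * n + t' * M = Fintype.card V' := by
    rw [hcard]
    ring
  rw [hn']
  refine low_num (q := q') (F := (Fintype.card V').factorial) (G := Nat.card (AuG R')) ht1 (by omega) hqV
    (by omega) (Pool.Agent.Helper83.FM.pow_self_le _) haut ?_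
  exact hfac.trans (Nat.mul_le_mul_left _ hAu)

/-- H: the lower bound -/
theorem lower [Finite S] (φ : SFm (RelLang S ar) 0 0) (k : ℕ) (hk : 2 ≤ k) (h : FamK φ k)
    (h' : ¬ FamK φ (k - 1)) :
    ∃ C : ℕ, ∀ N, ∃ n, N ≤ n ∧ n ^ ((k - 1) * n) ≤ C ^ n * countM φ n ^ k := by
  obtain ⟨C, a, hC⟩ := lower_ap φ k hk h h'
  refine ⟨C, fun N => ⟨a + k * N, by nlinarith, hC N⟩⟩

end Pool.Agent.Helper53.AJ
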