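import Pool.Agent.Helper53.AJ.Upper
import Pool.Agent.Helper53.AJ.Lower
import Pool.Agent.Helper58.MC.Low

/-!
# Growth of the number of models: the structure theorem
-/

set_option autoImplicit false

namespace Pool.Agent.Helper53.AJ

open FirstOrder Pool.Agent.Helper20.Spectra Pool.Agent.Helper58.QD Pool.Agent.Helper14.SS
open Pool.Agent.Helper40.MCM
open Pool.Agent.Helper40.MC (FinAP APk)

variable {S : Type} {ar : S → ℕ}

theorem fin_or_of {A : Set ℕ} (h : FinAP 1 A) : A.Finite ∨ Aᶜ.Finite := by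
  obtain ⟨n₁, hn₁⟩ := (Pool.Agent.Helper12.MC.stmtAP 1 A).2 h
  by_cases hA : ∃ n ∈ A, n₁ ≤ n
  · right
    obtain ⟨n, hn, hnn⟩ := hA
    obtain ⟨t, ht1, ht2, ht⟩ := hn₁ n hn hnn
    obtain rfl : t = 1 := le_antisymm ht2 ht1
    refine (Set.finite_lt_nat n).subset fun m hm => ?_
    by_contra hcon
    rw [Set.mem_ofPred_eq, not_lt] at hcon
    apply hm
    obtain ⟨d, rfl⟩ := Nat.exists_eq_add_of_le hcon
    have := ht d
    rwa [one_mul] at this
  · left
    push Not at hA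
    exact (Set.finite_lt_nat n₁).subset fun m hm => hA m hm

theorem FamK.mono {φ : SFm (RelLang S ar) 0 0} {k k' : ℕ} (h : FamK φ k) (hk : k ≤ k') : FamK φ k' := by
  intro q
  obtain ⟨n₀, hn₀⟩ := h q
  refine ⟨n₀, fun n hn R hR => ?_⟩
  obtain ⟨t, h1, h2, h3⟩ := hn₀ n hn R hR
  exact ⟨t, h1, h2.trans hk, h3⟩

/-- the structure theorem, with the lower bound in a progression -/
theorem struct_ap (S : Type) [Finite S] (ar : S → ℕ) (φ : SFm (RelLang S ar) 0 0) (h : FamBdd φ) :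
    ((∃ C, ∀ n, 1 ≤ n → countM φ n ≤ C ^ n) ∧ ((specM φ).Finite ∨ (specM φ)ᶜ.Finite)) ∨
      ∃ k, 2 ≤ k ∧ (∃ C a : ℕ, (∀ n, 1 ≤ n → countM φ n ^ k ≤ C ^ n * n ^ ((k - 1) * n)) ∧
        ∀ m : ℕ, (a + k * m) ^ ((k - 1) * (a + k * m)) ≤ C ^ (a + k * m) * countM φ (a + k * m) ^ k) ∧
        FinAP k (specM φ) := by
  classical
  have hex : ∃ k, FamK φ k := h
  by_cases h1 : FamK φ 1
  · left
    obtain ⟨C, hC⟩ := upper φ 1 le_rfl h1
    refine ⟨⟨C, fun n hn => ?_⟩, fin_or_of (Pool.Agent.Helper58.MC.finAP_of_upper φ le_rfl hC)⟩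
    have := hC n hn
    simpa using this
  · right
    have hk := Nat.find_spec hex
    have hk2 : 2 ≤ Nat.find hex := by
      by_contra hcon
      exact h1 (hk.mono (by omega))
    obtain ⟨C, hC⟩ := upper φ (Nat.find hex) (by omega) hk
    obtain ⟨C', a, hC'⟩ := lower_ap φ (Nat.find hex) hk2 hk (Nat.find_min hex (by omega))
    refine ⟨Nat.find hex, hk2, ⟨max C C', a, fun n hn => (hC n hn).trans ?_, fun m => (hC' m).trans ?_⟩,
      Pool.Agent.Helper58.MC.finAP_of_upper φ (by omega) hC⟩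
    · exact Nat.mul_le_mul_right _ (Nat.pow_le_pow_left (le_max_left _ _) n)
    · exact Nat.mul_le_mul_right _ (Nat.pow_le_pow_left (le_max_right _ _) _)

/-- the structure theorem -/
theorem stmtStruct : StmtStruct := by
  intro S _ ar φ hB
  rcases struct_ap S ar φ hB with h | ⟨k, hk, ⟨C, a, h1, h2⟩, h3⟩
  · exact Or.inl h
  · exact Or.inr ⟨k, hk, ⟨C, h1, fun N => ⟨a + k * N, by nlinarith, h2 N⟩⟩, h3⟩

end Pool.Agent.Helper53.AJ
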